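import Pool.Agent.H75.CO.Defs
import Pool.Agent.H25.DI.Lat
import Pool.Agent.H10.RA.Val

/-!
# H10 BR, Bt: the exponents of a norm with respect to a lattice do not depend on the adapted basis
-/

set_option autoImplicit false

namespace Pool.Agent.H10.BR

open Pool.Agent.H54.TT Pool.Agent.H98.RH Pool.Agent.H75.CO Pool.Agent.H25.DI Pool.Agent.H10.RA Matrix

variable {K : Type} [Field K] {v : K → ℤ} {hv : IsDV v} {n : ℕ}

/-- PROOF. If `β k < β' k`, the entries `(i, j)`, `i ≤ k ≤ j`, of the matrix `u = e⁻¹ e'` have positive valuation. Every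
permutation has a `j ≥ k` with `σ j ≤ k`, so the determinant of `u` has positive valuation, but it is a unit. -/
theorem ad_le {B : ℝ → Submodule (Ov hv) (Fin n → K)} {M : Submodule (Ov hv) (Fin n → K)} {e e' : GL (Fin n) K}
    {β β' : Fin n → ℝ} (h : Ad B M e β) (h' : Ad B M e' β') (k : Fin n) : β' k ≤ β k := by
  classical
  by_contra hlt
  push Not at hlt
  obtain ⟨u, hu⟩ : ∃ u : GL (Fin n) K, u = e⁻¹ * e' := ⟨_, rfl⟩
  have h1 : ∀ i j, Ge v 0 (u.val i j) := by
    have := (LM_le_iff hv (g := e') (g' := e)).1 (by rw [h.lat, h'.lat])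
    rw [hu]
    exact this
  have h2 : ∀ i j, Ge v 0 ((u⁻¹).val i j) := by
    have := (LM_le_iff hv (g := e) (g' := e')).1 (by rw [h.lat, h'.lat])
    rw [hu, _root_.mul_inv_rev, inv_inv]
    exact this
  have hd : v u.det.val = 0 := by
    have h3 : ((n : ℕ) : ℤ) * 0 ≤ v u.det.val := ge_det hv (k := 0) h1 u.det.ne_zero
    have h4 : ((n : ℕ) : ℤ) * 0 ≤ v (u⁻¹).det.val := ge_det hv (k := 0) h2 (u⁻¹).det.ne_zero
    rw [vdet_inv hv] at h4
    rw [mul_zero] at h3 h4
    omega
  -- the entries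
  have h3 : ∀ i j, i ≤ k → k ≤ j → Ge v 1 (u.val i j) := by
    intro i j hi hj h0
    have hx : e'.val *ᵥ (Pi.single j 1) ∈ B (-(β' j)) := by
      rw [h'.mem]
      intro l
      rw [inv_mulVec]
      intro hl
      by_cases hlj : l = j
      · rw [hlj, Pi.single_eq_same, hv.one]
        simp
      · rw [Pi.single_eq_of_ne hlj] at hl
        exact absurd rfl hl
    rw [h.mem] at hx
    have hx' := hx i
    have e1 : ((e⁻¹ : GL (Fin n) K).val *ᵥ (e'.val *ᵥ (Pi.single j 1))) i = u.val i j := by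
      rw [Matrix.mulVec_mulVec, ← Units.val_mul, ← hu, Matrix.mulVec_single_one]
      rfl
    rw [e1] at hx'
    have h4 := hx' h0
    have h5 : β' k ≤ β' j := h'.mono hj
    have h6 : β i ≤ β k := h.mono hi
    have h7 : (0 : ℝ) < (v (u.val i j) : ℝ) := by linarith
    have h8 : 0 < v (u.val i j) := by exact_mod_cast h7
    omega
  -- the determinant
  have h4 : Ge v 1 u.val.det := by
    rw [Matrix.det_apply]
    refine ge_sum hv _ fun σ _ => ?_
    obtain ⟨j, hj, hσ⟩ : ∃ j, k ≤ j ∧ σ j ≤ k := by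
      by_contra hcon
      push Not at hcon
      have hc : (Finset.Ici k).card ≤ (Finset.Ioi k).card :=
        Finset.card_le_card_of_injOn σ (fun j hj => by
          rw [Finset.mem_coe, Finset.mem_Ioi]
          exact hcon j (Finset.mem_Ici.1 hj)) σ.injective.injOn
      rw [Fin.card_Ici, Fin.card_Ioi] at hc
      have := k.2
      omega
    have h5 : Ge v (1 + 0) (∏ i, u.val (σ i) i) := by
      rw [← Finset.mul_prod_erase Finset.univ (fun i => u.val (σ i) i) (Finset.mem_univ j)]
      refine ge_mul hv (h3 _ _ hσ hj) ?_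
      have := ge_prod hv (Finset.univ.erase j) (f := fun i => u.val (σ i) i) (k := 0) fun i _ => h1 _ _
      rwa [mul_zero] at this
    rw [add_zero] at h5
    rcases Int.units_eq_one_or (Equiv.Perm.sign σ) with hs | hs
    · rw [hs, one_smul]
      exact h5
    · rw [hs, Units.neg_smul, one_smul]
      exact ge_neg hv h5
  have h5 : 1 ≤ v u.det.val := h4 u.det.ne_zero
  omega

theorem ad_unique {B : ℝ → Submodule (Ov hv) (Fin n → K)} {M : Submodule (Ov hv) (Fin n → K)} {e e' : GL (Fin n) K}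
    {β β' : Fin n → ℝ} (h : Ad B M e β) (h' : Ad B M e' β') : β = β' :=
  funext fun k => le_antisymm (ad_le h' h k) (ad_le h h' k)

theorem bt_eq {B : ℝ → Submodule (Ov hv) (Fin n → K)} {M : Submodule (Ov hv) (Fin n → K)} {e : GL (Fin n) K}
    {β : Fin n → ℝ} (h : Ad B M e β) (k : Fin n) : bt B M k = β k := by
  have hex : ∃ e β, Ad B M e β := ⟨e, β, h⟩
  unfold bt
  rw [dif_pos hex]
  exact congrFun (ad_unique hex.choose_spec.choose_spec h) k

end Pool.Agent.H10.BR
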