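import Pool.Agent.H10.BR.Nb
import Pool.Agent.H25.CO.Bas

/-!
# H10 BR, Cl: close norms

The ball of radius `2 ^ t` of the norm `sg` is `{y | s y ≤ 2 ^ t}`, `s y = max |x i| min (α i / α k) 1` for the coordinates
`x i` of `y` in an adapted basis.
-/

set_option autoImplicit false

namespace Pool.Agent.H10.BR

open Pool.Agent.H54.TT Pool.Agent.H98.RH Pool.Agent.H75.CO Pool.Agent.H25.DI Matrix

section

variable {K : Type} [Field K] {v : K → ℤ} {hv : IsDV v} {π : Kˣ} {n : ℕ}

theorem mem_bl (hπ : v π = 1) {e : GL (Fin n) K} {t : ℝ} {y : Fin n → K} :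
    y ∈ bl π (LM hv e) t ↔ ∀ i, GeR v (-t) (((e⁻¹ : GL (Fin n) K).val *ᵥ y) i) := by
  unfold bl
  rw [Pool.Agent.H25.CO.mem_sh, mem_LM]
  refine forall_congr' fun i => ?_
  rw [Matrix.mulVec_smul, Pi.smul_apply, smul_eq_mul, ge_zpow hv hπ]
  constructor
  · intro h h0
    have h1 := h h0
    have h2 : ((-⌊t⌋ : ℤ) : ℝ) ≤ (v (((e⁻¹ : GL (Fin n) K).val *ᵥ y) i) : ℝ) := by exact_mod_cast h1
    have h3 := Int.floor_le t
    rw [Int.cast_neg] at h2
    linarith
  · intro h h0
    have h1 := h h0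
    have h2 : (-(v (((e⁻¹ : GL (Fin n) K).val *ᵥ y) i) : ℤ) : ℝ) ≤ t := by linarith
    have h3 : -(v (((e⁻¹ : GL (Fin n) K).val *ᵥ y) i)) ≤ ⌊t⌋ := Int.le_floor.2 (by rw [Int.cast_neg]; exact h2)
    omega

theorem geR_add (hv : IsDV v) {r : ℝ} {x y : K} (hx : GeR v r x) (hy : GeR v r y) : GeR v r (x + y) := by
  intro h
  by_cases h1 : x = 0
  · subst h1
    rw [zero_add] at h ⊢
    exact hy h
  · by_cases h2 : y = 0
    · subst h2
      rw [add_zero] at h ⊢
      exact hx h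
    · have h3 := hv.add x y h1 h2 h
      rcases min_le_iff.1 h3 with h4 | h4
      · have : (v x : ℝ) ≤ (v (x + y) : ℝ) := by exact_mod_cast h4
        exact (hx h1).trans this
      · have : (v y : ℝ) ≤ (v (x + y) : ℝ) := by exact_mod_cast h4
        exact (hy h2).trans this

theorem geR_zero (r : ℝ) : GeR v r 0 := fun h => absurd rfl h

theorem mem_sg (hπ : v π = 1) {B : ℝ → Submodule (Ov hv) (Fin n → K)} {e : GL (Fin n) K} {β : Fin n → ℝ}
    (h : Ad B (LM hv e) e β) {k : Fin n} {t : ℝ} {y : Fin n → K} :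
    y ∈ sg π (LM hv e) B k t ↔ ∀ i, GeR v (-t - max (β i - β k) 0) (((e⁻¹ : GL (Fin n) K).val *ᵥ y) i) := by
  unfold sg
  rw [bt_eq h]
  constructor
  · intro hy i
    obtain ⟨y1, h1, y2, h2, rfl⟩ := Submodule.mem_sup.1 hy
    rw [Matrix.mulVec_add, Pi.add_apply]
    rw [h.mem] at h1
    rw [mem_bl hπ] at h2
    refine geR_add hv ?_ ?_
    · intro h0
      have := h1 i h0
      have h3 := le_max_left (β i - β k) 0
      linarith
    · intro h0
      have := h2 i h0
      have h3 := le_max_right (β i - β k) 0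
      linarith
  · intro hy
    classical
    obtain ⟨x, hx⟩ : ∃ x, x = ((e⁻¹ : GL (Fin n) K).val *ᵥ y) := ⟨_, rfl⟩
    have hyx : y = e.val *ᵥ x := by rw [hx, mulVec_inv]
    have h3 : y = e.val *ᵥ (fun i => if β k ≤ β i then x i else 0) + e.val *ᵥ (fun i => if β k ≤ β i then 0 else x i) := by
      rw [← Matrix.mulVec_add, hyx]
      congr 1
      funext i
      rw [Pi.add_apply]
      split_ifs
      · rw [add_zero]
      · rw [zero_add]
    rw [h3]
    refine Submodule.add_mem_sup ?_ ?_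
    · rw [h.mem]
      intro i
      rw [inv_mulVec]
      by_cases hi : β k ≤ β i
      · rw [if_pos hi]
        intro h0
        rw [hx] at h0
        have h4 := hy i h0
        rw [max_eq_left (by linarith)] at h4
        rw [hx]
        linarith
      · rw [if_neg hi]
        exact geR_zero _
    · rw [mem_bl hπ]
      intro i
      rw [inv_mulVec]
      by_cases hi : β k ≤ β i
      · rw [if_pos hi]
        exact geR_zero _
      · rw [if_neg hi]
        intro h0
        rw [hx] at h0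
        have h4 := hy i h0
        rw [max_eq_right (by linarith [not_le.1 hi])] at h4
        rw [hx]
        linarith

end

open Pool.Agent.H92.LG Pool.Agent.H9.XM
open scoped NNReal

variable {E : Type} [Field E] {n : ℕ}

/-- the norm `s` of `IsSig` in coordinates -/
theorem exists_sig {b : (Fin n → LL E) → ℝ≥0} (hb : IsNrm b) {B : Matrix (Fin n) (Fin n) (LL E)} {α : Fin n → ℝ≥0}
    (h : Pool.Agent.H92.LG.Adp B α b) {π : (LL E)ˣ} (hπ : od E π = 1) (k : Fin n) :
    ∃ s : (Fin n → LL E) → ℝ≥0, IsSig k b s ∧ ∀ (t : ℝ) (y : Fin n → LL E),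
      y ∈ sg π (LM (isDV_od E) 1) (Bl b) k t ↔ (s y : ℝ) ≤ 2 ^ t := by
  refine ⟨fun y => Finset.univ.sup fun i => ‖((tg h.go)⁻¹ : GL (Fin n) (LL E)).val.mulVec y i‖₊ * min (α i / α k) 1,
    ⟨B, α, h, ?_⟩, ?_⟩
  · intro x
    have e1 : ((tg h.go)⁻¹ : GL (Fin n) (LL E)).val.mulVec (vecMul x B) = x := by
      have := inv_mulVec (tg h.go) x
      rw [tg_val, Matrix.mulVec_transpose] at this
      exact this
    simp only [e1]
  · intro t y
    have hA := ad_of_adp hb h
    have hlat : LM (isDV_od E) 1 = LM (isDV_od E) (tg h.go) := hA.lat.symm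
    have hA' : Ad (hv := isDV_od E) (Bl b) (LM (isDV_od E) (tg h.go)) (tg h.go) fun i => -(Real.logb 2 (α i)) := by
      rw [← hlat]
      exact hA
    rw [hlat, mem_sg hπ hA', sup_le_iff']
    have hk : (0 : ℝ) < α k := by exact_mod_cast h.pos k
    have key : ∀ i, 0 < min (α i / α k) 1 ∧
        Real.logb 2 ((min (α i / α k) 1 : ℝ≥0) : ℝ) = -(max (-(Real.logb 2 (α i)) - -(Real.logb 2 (α k))) 0) := by
      intro i
      have hi : (0 : ℝ) < α i := by exact_mod_cast h.pos i
      refine ⟨lt_min (div_pos (h.pos i) (h.pos k)) one_pos, ?_⟩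
      rcases le_total (α i / α k) 1 with h1 | h1
      · have h1' : (α i : ℝ) / α k ≤ 1 := by exact_mod_cast h1
        rw [min_eq_left h1, NNReal.coe_div, Real.logb_div hi.ne' hk.ne']
        have h2 : Real.logb 2 ((α i : ℝ) / α k) ≤ 0 := Real.logb_nonpos one_lt_two (div_pos hi hk).le h1'
        rw [Real.logb_div hi.ne' hk.ne'] at h2
        rw [max_eq_left (by linarith)]
        ring
      · have h1' : 1 ≤ (α i : ℝ) / α k := by exact_mod_cast h1
        rw [min_eq_right h1, NNReal.coe_one, Real.logb_one]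
        have h2 : 0 ≤ Real.logb 2 ((α i : ℝ) / α k) := Real.logb_nonneg one_lt_two h1'
        rw [Real.logb_div hi.ne' hk.ne'] at h2
        rw [max_eq_right (by linarith), neg_zero]
    constructor
    · intro h1 i _
      rw [mul_le_iff (key i).1, (key i).2, neg_neg]
      exact h1 i
    · intro h1 i
      have := h1 i (Finset.mem_univ i)
      rw [mul_le_iff (key i).1, (key i).2, neg_neg] at this
      exact this

/-- close norms are close in the sense of the core -/
theorem cl_of_close [Finite E] {D e : ℝ} (he : 0 < e) {π : (LL E)ˣ} (hπ : od E π = 1) {δ : ℝ≥0}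
    (hδ : (δ : ℝ) ≤ 2 ^ (-D) * (2 ^ e - 1)) {b b0 : (Fin n → LL E) → ℝ≥0} (hb : IsNrm b) (hb0 : IsNrm b0)
    (hc : Close δ b0 b) : Cl (hv := isDV_od E) π (LM (isDV_od E) 1) (Bl b) (Bl b0) e D := by
  obtain ⟨B, α, hA⟩ := exists_adp hb
  obtain ⟨B0, α0, hA0⟩ := exists_adp hb0
  intro k t ht
  obtain ⟨s, hs, hs'⟩ := exists_sig hb hA hπ k
  obtain ⟨s0, hs0, hs0'⟩ := exists_sig hb0 hA0 hπ k
  have h2e : (0 : ℝ) < 2 ^ e - 1 := by
    have := Real.one_lt_rpow one_lt_two he
    linarith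
  have hq : (2 : ℝ) ^ t + δ ≤ 2 ^ (t + e) := by
    have h1 : (2 : ℝ) ^ (-D) ≤ 2 ^ t := Real.rpow_le_rpow_of_exponent_le one_lt_two.le ht
    have h2 : (δ : ℝ) ≤ 2 ^ t * (2 ^ e - 1) := hδ.trans (mul_le_mul_of_nonneg_right h1 h2e.le)
    rw [Real.rpow_add two_pos]
    linarith
  have hint : ∀ y, y ∈ LM (isDV_od E) (1 : GL (Fin n) (LL E)) → ∀ i, ‖y i‖₊ ≤ 1 := by
    intro y hy i
    have h1 := (mem_LM (isDV_od E)).1 hy i
    rw [inv_one, Units.val_one, Matrix.one_mulVec] at h1
    have h2 := (norm_le 0 (y i)).2 h1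
    rw [neg_zero, zpow_zero] at h2
    exact h2
  constructor
  · rintro y ⟨hyM, hy⟩
    have hy' : (s y : ℝ) ≤ 2 ^ t := (hs' t y).1 hy
    have h1 := (hc k s0 s hs0 hs y (hint y hyM)).1
    have h2 : (s0 y : ℝ) ≤ s y + δ := by exact_mod_cast h1
    exact (hs0' (t + e) y).2 (by linarith)
  · rintro y ⟨hyM, hy⟩
    have hy' : (s0 y : ℝ) ≤ 2 ^ t := (hs0' t y).1 hy
    have h1 := (hc k s0 s hs0 hs y (hint y hyM)).2
    have h2 : (s y : ℝ) ≤ s0 y + δ := by exact_mod_cast h1
    exact (hs' (t + e) y).2 (by linarith)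

end Pool.Agent.H10.BR
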