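import Pool.Agent.H10.BR.Nb

/-!
# H10 BR, Sc: windows depend on the norm only through the norms `sg`, and on the data of the levels `0, .., r`
-/

set_option autoImplicit false

namespace Pool.Agent.H10.BR

open Pool.Agent.H54.TT Pool.Agent.H98.RH Pool.Agent.H75.CO Matrix
open scoped Pointwise

variable {K : Type} [Field K] {v : K → ℤ} {hv : IsDV v} {π : Kˣ} {n : ℕ} {G : Type} [Group G]
  {ρ : G →* GL (Fin n) K} {S : Set G} {A L1 N : ℕ}

theorem kap_congr {B B' : ℝ → Submodule (Ov hv) (Fin n → K)} (h : ∀ g, sg π (La hv ρ g) B = sg π (La hv ρ g) B') :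
    kap (hv := hv) π ρ B = kap π ρ B' := by
  funext W k g x
  unfold kap
  rw [h g]

theorem lv_congr {B B' : ℝ → Submodule (Ov hv) (Fin n → K)} (h : ∀ g, sg π (La hv ρ g) B = sg π (La hv ρ g) B') {θ : ℝ}
    {d : Dat n N} {g : G} {W W1 : Submodule (Ov hv) (Fin n → K)} (hL : Lv π ρ S A L1 θ d g B W W1) :
    Lv π ρ S A L1 θ d g B' W W1 where
  le := hL.le
  y1 := by rw [← kap_congr h]; exact hL.y1
  y2 := by rw [← h g]; exact hL.y2
  t1 := by rw [← kap_congr h]; exact hL.t1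
  t2 := by rw [← kap_congr h]; exact hL.t2

theorem sp_congr {B B' : ℝ → Submodule (Ov hv) (Fin n → K)} (h : ∀ g, sg π (La hv ρ g) B = sg π (La hv ρ g) B')
    (d : Dat n N) (g : G) : Sp (hv := hv) π ρ S A L1 d g B = Sp π ρ S A L1 d g B' := by
  funext W W1
  unfold Sp
  rw [kap_congr h]

theorem tw_congr {B B' : ℝ → Submodule (Ov hv) (Fin n → K)} (h : ∀ g, sg π (La hv ρ g) B = sg π (La hv ρ g) B') {θ : ℝ}
    {r : ℕ} {d d' : ℕ → Dat n N} (hd : ∀ l, l ≤ r → d l = d' l) {g : G} {W : ℕ → Submodule (Ov hv) (Fin n → K)}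
    (hT : Tw π ρ S A L1 θ r d g B W) : Tw π ρ S A L1 θ r d' g B' W where
  top := hT.top
  bot := hT.bot
  ne := hT.ne
  sub := hT.sub
  lv := by
    intro l hl
    rw [← hd l hl]
    exact lv_congr h (hT.lv l hl)

theorem wd_congr {B B' : ℝ → Submodule (Ov hv) (Fin n → K)} (h : ∀ g, sg π (La hv ρ g) B = sg π (La hv ρ g) B')
    {r : ℕ} {d d' : ℕ → Dat n N} (hd : ∀ l, l ≤ r → d l = d' l) {g : G} {W : ℕ → Submodule (Ov hv) (Fin n → K)}
    {p : ℕ → ℤ → ℝ} {f : (Fin (r + 1) → ℤ) → Submodule (Ov hv) (Fin n → K)} (hW : Wd π ρ S A L1 r d g B W p f) :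
    Wd π ρ S A L1 r d' g B' W p f where
  en := by
    intro l hl
    have h1 := hW.en l hl
    have e : Gm A L1 r d' = Gm A L1 r d := by
      unfold Gm
      rw [hd r le_rfl]
    rw [e, ← hd l hl, ← sp_congr h]
    exact h1
  eq := by
    intro i
    have e : Gm A L1 r d' = Gm A L1 r d := by
      unfold Gm
      rw [hd r le_rfl]
    rw [hW.eq i, e]
    refine iSup_congr fun l => ?_
    rw [← hd l (Nat.lt_succ_iff.1 l.2), sp_congr h]

theorem wk_congr {B B' : ℝ → Submodule (Ov hv) (Fin n → K)} (h : ∀ g, sg π (La hv ρ g) B = sg π (La hv ρ g) B')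
    {r : ℕ} {d d' : ℕ → Dat n N} (hd : ∀ l, l ≤ r → d l = d' l) {g : G}
    {f : (Fin (r + 1) → ℤ) → Submodule (Ov hv) (Fin n → K)} (hf : Wk π ρ S A L1 r d g B f) :
    Wk π ρ S A L1 r d' g B' f := by
  obtain ⟨W, p, h1, h2⟩ := hf
  exact ⟨W, p, tw_congr h hd h1, wd_congr h hd h2⟩

theorem st_congr {B B' : ℝ → Submodule (Ov hv) (Fin n → K)} (h : ∀ g, sg π (La hv ρ g) B = sg π (La hv ρ g) B')
    {r : ℕ} {d d' : ℕ → Dat n N} (hd : ∀ l, l ≤ r → d l = d' l) {g : G}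
    {f : (Fin (r + 1) → ℤ) → Submodule (Ov hv) (Fin n → K)} (hf : Pool.Agent.H75.CO.St π ρ S A L1 r d g B f) :
    Pool.Agent.H75.CO.St π ρ S A L1 r d' g B' f := by
  obtain ⟨W, p, h1, h2, h3⟩ := hf
  refine ⟨W, p, tw_congr h hd h1, ?_, wd_congr h hd h3⟩
  intro l hl
  rw [← hd l hl, ← sp_congr h]
  exact h2 l hl

theorem rg_congr {r : ℕ} {d d' : ℕ → Dat n N} (hd : ∀ l, l ≤ r → d l = d' l) (h : Rg r d) : Rg r d' where
  lt := h.lt
  c1 := by
    intro l hl
    rw [← hd l hl]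
    exact h.c1 l hl
  c2 := by
    intro l hl
    rw [← hd l hl.le, ← hd (l + 1) hl]
    exact h.c2 l hl

/-- the extension of the data -/
def ex {r : ℕ} (d : Fin (r + 1) → Dat n N) (l : ℕ) : Dat n N := d ⟨min l r, by omega⟩

theorem ex_restr {r : ℕ} (d : ℕ → Dat n N) (l : ℕ) (hl : l ≤ r) : d l = ex (fun i : Fin (r + 1) => d i) l := by
  unfold ex
  show d l = d (min l r)
  rw [min_eq_left hl]

instance : Finite (Dat n N) := by
  refine Finite.of_injective (fun d : Dat n N => (d.al, d.be, d.a, d.b, d.j, d.k)) ?_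
  rintro ⟨al, be, a, b, j, k⟩ ⟨al', be', a', b', j', k'⟩ h
  simp only [Prod.mk.injEq] at h
  obtain ⟨h1, h2, h3, h4, h5, h6⟩ := h
  subst h1 h2 h3 h4 h5 h6
  rfl

/-- scaling of a norm by a constant factor: the balls are translated, the norms `sg` do not change -/
theorem sg_scale {B B' : ℝ → Submodule (Ov hv) (Fin n → K)} {τ : ℝ} (h : ∀ t, B' t = B (t - τ)) (hB : Hn B)
    (g : GL (Fin n) K) : sg π (LM hv g) B' = sg π (LM hv g) B := by
  obtain ⟨e, β, hA⟩ := hB g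
  have hA' : Ad B' (LM hv g) e fun i => β i - τ := by
    refine ⟨hA.lat, fun i j hij => sub_le_sub_right (hA.mono hij) τ, ?_⟩
    intro t x
    rw [h, hA.mem]
    have e1 : ∀ i, -(t - τ) - β i = -t - (β i - τ) := fun i => by ring
    simp only [e1]
  funext k t
  unfold sg
  rw [bt_eq hA, bt_eq hA', h]
  congr 2
  ring

end Pool.Agent.H10.BR
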