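import Pool.Agent.H75.CO.Defs
import Pool.Agent.H92.LG.CoreS

/-!
# H10 BR, Wrd: terms in words, counting
-/

set_option autoImplicit false

namespace Pool.Agent.H10.BR

open Pool.Agent.H54.TT Pool.Agent.H98.RH Pool.Agent.H75.CO Pool.Agent.H92.LG Matrix
open scoped Pointwise

/-- lattice terms of depth at most `j` over the words of length `M`, with exponents at most `C` -/
def TW (J : Type) (M C : ℕ) : ℕ → Set (Pool.Agent.H98.RH.LT (Fin M → J))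
  | 0 => {t | ∃ (w : Fin M → J) (k : ℤ), |k| ≤ C ∧ t = Pool.Agent.H98.RH.LT.sc k (Pool.Agent.H98.RH.LT.sym w)}
  | j + 1 => TW J M C j ∪ {t | ∃ t₁ ∈ TW J M C j, ∃ t₂ ∈ TW J M C j, ∃ k : ℤ, |k| ≤ C ∧
      (t = Pool.Agent.H98.RH.LT.sc k t₁ ∨ t = Pool.Agent.H98.RH.LT.sum t₁ t₂ ∨ t = Pool.Agent.H98.RH.LT.inf t₁ t₂)}

theorem finite_abs (C : ℕ) : {k : ℤ | |k| ≤ C}.Finite := by
  refine (Set.finite_Icc (-(C : ℤ)) C).subset ?_
  intro k hk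
  exact abs_le.1 hk

theorem TW_finite {J : Type} [Finite J] (M C j : ℕ) : (TW J M C j).Finite := by
  induction j with
  | zero =>
    have h1 : ((Set.univ : Set (Fin M → J)) ×ˢ {k : ℤ | |k| ≤ C}).Finite := Set.finite_univ.prod (finite_abs C)
    refine (h1.image fun q => Pool.Agent.H98.RH.LT.sc q.2 (Pool.Agent.H98.RH.LT.sym q.1)).subset ?_
    rintro t ⟨w, k, hk, rfl⟩
    exact ⟨(w, k), ⟨Set.mem_univ _, hk⟩, rfl⟩
  | succ j ih =>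
    refine ih.union ?_
    have h1 : (TW J M C j ×ˢ {k : ℤ | |k| ≤ C}).Finite := ih.prod (finite_abs C)
    have h2 : (TW J M C j ×ˢ TW J M C j).Finite := ih.prod ih
    refine (((h1.image fun q => Pool.Agent.H98.RH.LT.sc q.2 q.1).union
      (h2.image fun q => Pool.Agent.H98.RH.LT.sum q.1 q.2)).union
      (h2.image fun q => Pool.Agent.H98.RH.LT.inf q.1 q.2)).subset ?_
    rintro t ⟨t₁, h₁, t₂, h₂, k, hk, rfl | rfl | rfl⟩
    · exact Or.inl (Or.inl ⟨(t₁, k), ⟨h₁, hk⟩, rfl⟩)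
    · exact Or.inl (Or.inr ⟨(t₁, t₂), ⟨h₁, h₂⟩, rfl⟩)
    · exact Or.inr ⟨(t₁, t₂), ⟨h₁, h₂⟩, rfl⟩

/-- terms over the group are terms over the words -/
theorem exists_TW {K : Type} [Field K] {v : K → ℤ} (hv : IsDV v) (π : Kˣ) {n : ℕ} {J : Type} (σ : J → GL (Fin n) K)
    (M C j : ℕ) {t : Pool.Agent.H98.RH.LT (GL (Fin n) K)} (ht : t ∈ TL (Set.range σ) M C j) :
    ∃ t' ∈ TW J M C j, ev hv π (fun g => g) t = ev hv π (wd σ) t' := by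
  induction j generalizing t with
  | zero =>
    obtain ⟨s, hs, k, hk, rfl⟩ := ht
    obtain ⟨f, hf⟩ := Set.mem_pow.1 hs
    choose w hw using fun i => (f i).2
    refine ⟨Pool.Agent.H98.RH.LT.sc k (Pool.Agent.H98.RH.LT.sym w), ⟨w, k, hk, rfl⟩, ?_⟩
    have e : wd σ w = s := by
      unfold wd
      simp only [hw]
      exact hf
    show (LM hv s).map _ = (LM hv (wd σ w)).map _
    rw [e]
  | succ j ih =>
    rcases ht with ht | ⟨t₁, h₁, t₂, h₂, k, hk, rfl | rfl | rfl⟩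
    · obtain ⟨t', h1, h2⟩ := ih ht
      exact ⟨t', Or.inl h1, h2⟩
    · obtain ⟨t₁', h3, h4⟩ := ih h₁
      refine ⟨Pool.Agent.H98.RH.LT.sc k t₁', Or.inr ⟨t₁', h3, t₁', h3, k, hk, Or.inl rfl⟩, ?_⟩
      show (ev hv π (fun g => g) t₁).map _ = (ev hv π (wd σ) t₁').map _
      rw [h4]
    · obtain ⟨t₁', h3, h4⟩ := ih h₁
      obtain ⟨t₂', h5, h6⟩ := ih h₂
      refine ⟨Pool.Agent.H98.RH.LT.sum t₁' t₂', Or.inr ⟨t₁', h3, t₂', h5, k, hk, Or.inr (Or.inl rfl)⟩, ?_⟩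
      show ev hv π (fun g => g) t₁ ⊔ ev hv π (fun g => g) t₂ = ev hv π (wd σ) t₁' ⊔ ev hv π (wd σ) t₂'
      rw [h4, h6]
    · obtain ⟨t₁', h3, h4⟩ := ih h₁
      obtain ⟨t₂', h5, h6⟩ := ih h₂
      refine ⟨Pool.Agent.H98.RH.LT.inf t₁' t₂', Or.inr ⟨t₁', h3, t₂', h5, k, hk, Or.inr (Or.inr rfl)⟩, ?_⟩
      show ev hv π (fun g => g) t₁ ⊓ ev hv π (fun g => g) t₂ = ev hv π (wd σ) t₁' ⊓ ev hv π (wd σ) t₂'
      rw [h4, h6]

/-- the number of the windows is at most `2 ^ (c ^ 2)` for large `c` -/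
theorem count_bound (n R s : ℕ) : ∃ c1 : ℕ, ∀ c, c1 ≤ c → ∀ s', s' ≤ s →
    (10 * (CC n R c + 1) * (s' + 1) ^ (Ln (AA n R) c (NN n))) ^ 3 ^ (JJ n) ≤ 2 ^ (c ^ 2) := by
  obtain ⟨P, hP⟩ : ∃ P, P = AA n R ^ NN n := ⟨_, rfl⟩
  obtain ⟨A1, hA1⟩ : ∃ A1, A1 = 10 * (R + 1) * P := ⟨_, rfl⟩
  obtain ⟨Q, hQ⟩ : ∃ Q, Q = (4 + A1 + s * P) * 3 ^ (JJ n) := ⟨_, rfl⟩
  refine ⟨Q + 1, fun c hc s' hs => ?_⟩
  have e1 : Ln (AA n R) c (NN n) = P * c := by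
    unfold Ln
    rw [hP]
  have e2 : CC n R c = A1 * c := by
    unfold CC
    rw [e1, hA1]
    ring
  rw [e1, e2]
  have h1 : A1 * c + 1 ≤ 2 ^ (A1 * c) := Nat.lt_two_pow_self
  have h2 : s' + 1 ≤ 2 ^ s := (Nat.succ_le_succ hs).trans Nat.lt_two_pow_self
  have h3 : 10 * (A1 * c + 1) * (s' + 1) ^ (P * c) ≤ 2 ^ (4 + A1 * c + s * (P * c)) := by
    calc 10 * (A1 * c + 1) * (s' + 1) ^ (P * c) ≤ 2 ^ 4 * 2 ^ (A1 * c) * (2 ^ s) ^ (P * c) :=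
          Nat.mul_le_mul (Nat.mul_le_mul (by norm_num) h1) (Nat.pow_le_pow_left h2 _)
      _ = 2 ^ (4 + A1 * c + s * (P * c)) := by rw [← pow_mul, ← pow_add, ← pow_add]
  have h4 : (4 + A1 * c + s * (P * c)) * 3 ^ (JJ n) ≤ c ^ 2 := by
    have h5 : 4 + A1 * c + s * (P * c) ≤ (4 + A1 + s * P) * c := by
      have : 4 ≤ 4 * c := by omega
      calc 4 + A1 * c + s * (P * c) ≤ 4 * c + A1 * c + s * (P * c) := by omega
        _ = (4 + A1 + s * P) * c := by ring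
    calc (4 + A1 * c + s * (P * c)) * 3 ^ (JJ n) ≤ (4 + A1 + s * P) * c * 3 ^ (JJ n) := Nat.mul_le_mul_right _ h5
      _ = Q * c := by rw [hQ]; ring
      _ ≤ c * c := Nat.mul_le_mul_right _ (by omega)
      _ = c ^ 2 := by ring
  calc (10 * (A1 * c + 1) * (s' + 1) ^ (P * c)) ^ 3 ^ (JJ n) ≤ (2 ^ (4 + A1 * c + s * (P * c))) ^ 3 ^ (JJ n) :=
        Nat.pow_le_pow_left h3 _
    _ = 2 ^ ((4 + A1 * c + s * (P * c)) * 3 ^ (JJ n)) := by rw [← pow_mul]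
    _ ≤ 2 ^ (c ^ 2) := Nat.pow_le_pow_right (by norm_num) h4

end Pool.Agent.H10.BR
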