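import Pool.Agent.H10.BR.Cl
import Pool.Agent.H10.BR.Sc
import Pool.Agent.H10.BR.Wrd
import Pool.Agent.H75.CO.Core
import Pool.Agent.H92.LG.DicA

/-!
# H10 BR, Core: the interface of CORE and GLUE (`CoreS.core`) from the theorems of CORE

`G = GL n (LL E)`, `ρ` the identity, `S` the set of the `σ j`. The regimes are pairs `r < n`, `d : Fin (r + 1) → Dat`.
`b' = a b ∘ σ j`: the balls are `σ j ⁻¹` of the balls of `a b`; the windows of `a b` and of `b` are the same (`sg_scale`).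
Windows of `b'` at `1` are `σ j ⁻¹` of windows of `b` at `σ j`, which are shifts of the strong window of `b0` at `1`.
-/

set_option autoImplicit false

namespace Pool.Agent.H10.BR

open Pool.Agent.H54.TT Pool.Agent.H98.RH Pool.Agent.H75.CO Pool.Agent.H25.DI Matrix
open Pool.Agent.H92.LG Pool.Agent.H9.XM Pool.Agent.H65.NT
open scoped NNReal Pointwise

variable {E : Type} [Field E] {n : ℕ}

/-- the regimes -/
abbrev Reg (n : ℕ) : Type := Σ r : Fin n, (Fin ((r : ℕ) + 1) → Dat n (NN n))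

/-- strong -/
def StP (π : (LL E)ˣ) (S : Set (GL (Fin n) (LL E))) (R c : ℕ) (t : Reg n) (b : (Fin n → LL E) → ℝ≥0) : Prop :=
  Rg (t.1 : ℕ) (ex t.2) ∧ ∃ f, Pool.Agent.H75.CO.St (hv := isDV_od E) π (MonoidHom.id (GL (Fin n) (LL E))) S (AA n R) c (t.1 : ℕ)
    (ex t.2) 1 (Bl b) f

/-- weak -/
def WkP (π : (LL E)ˣ) (S : Set (GL (Fin n) (LL E))) (R c : ℕ) (t : Reg n) (b : (Fin n → LL E) → ℝ≥0) : Prop :=
  Rg (t.1 : ℕ) (ex t.2) ∧ ∃ f, Wk (hv := isDV_od E) π (MonoidHom.id (GL (Fin n) (LL E))) S (AA n R) c (t.1 : ℕ)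
    (ex t.2) 1 (Bl b) f

open Classical in
/-- the window -/
noncomputable def fP (π : (LL E)ˣ) (S : Set (GL (Fin n) (LL E))) (R c : ℕ) (t : Reg n) (b : (Fin n → LL E) → ℝ≥0) :
    (Fin ((t.1 : ℕ) + 1) → ℤ) → Submodule (Ov (isDV_od E)) (Fin n → LL E) :=
  if h : WkP π S R c t b then h.2.choose else fun _ => ⊥

theorem fP_spec {π : (LL E)ˣ} {S : Set (GL (Fin n) (LL E))} {R c : ℕ} {t : Reg n} {b : (Fin n → LL E) → ℝ≥0}
    (h : WkP π S R c t b) : Wk (hv := isDV_od E) π (MonoidHom.id (GL (Fin n) (LL E))) S (AA n R) c (t.1 : ℕ)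
    (ex t.2) 1 (Bl b) (fP π S R c t b) := by
  unfold fP
  rw [dif_pos h]
  exact h.2.choose_spec

/-- the setup -/
theorem stp_of {J : Type} [Finite J] {R : ℕ} {σ : J → GL (Fin n) (LL E)} (h1 : ∃ j, σ j = 1)
    (hinv : ∀ j, ∃ j', σ j' = (σ j)⁻¹) (hb : ∀ j, Bdm R (od E) (σ j)) {π : (LL E)ˣ} (hπ : od E π = 1) :
    Stp (isDV_od E) π (MonoidHom.id (GL (Fin n) (LL E))) (Set.range σ) R where
  unif := hπ
  fin := Set.finite_range σ
  one := by
    obtain ⟨j, hj⟩ := h1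
    exact ⟨j, hj⟩
  inv := by
    rintro _ ⟨j, rfl⟩
    obtain ⟨j', hj'⟩ := hinv j
    exact ⟨j', hj'⟩
  low := by
    rintro _ ⟨j, rfl⟩ x hx
    rw [Pool.Agent.H25.CO.mem_sh, mem_L0] at hx
    show x ∈ LM (isDV_od E) (σ j)
    rw [mem_LM]
    intro i
    have hx' : ∀ l, Ge (od E) (R : ℤ) (x l) := by
      intro l
      have := hx l
      rw [Pi.smul_apply, smul_eq_mul, ge_zpow (isDV_od E) hπ] at this
      exact this
    rw [Matrix.mulVec, dotProduct]
    refine Pool.Agent.H10.RA.ge_sum (isDV_od E) _ fun l _ => ?_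
    have := ge_mul (isDV_od E) (hb j i l).2 (hx' l)
    rwa [neg_add_cancel] at this
  up := by
    rintro _ ⟨j, rfl⟩ x hx
    have hx1 : x ∈ LM (isDV_od E) (σ j) := hx
    rw [mem_LM] at hx1
    rw [Pool.Agent.H25.CO.mem_sh, mem_L0]
    intro i
    rw [Pi.smul_apply, smul_eq_mul, ge_zpow (isDV_od E) hπ]
    have e : x i = ((σ j).val.mulVec ((σ j)⁻¹.val.mulVec x)) i := by rw [mulVec_inv]
    rw [e, Matrix.mulVec, dotProduct]
    refine Pool.Agent.H10.RA.ge_sum (isDV_od E) _ fun l _ => ?_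
    have := ge_mul (isDV_od E) (hb j i l).1 (hx1 l)
    rwa [add_zero] at this

/-- scaling -/
theorem Bl_scale {b : (Fin n → LL E) → ℝ≥0} (hb : IsNrm b) {a : ℝ≥0} (ha : 0 < a) (t : ℝ) :
    Bl (fun x => a * b x) t = Bl b (t - Real.logb 2 a) := by
  have ha' : (0 : ℝ) < a := by exact_mod_cast ha
  have hb' : IsNrm fun x => a * b x := by
    have := isNrm_comp hb 1 ha
    simpa using this
  ext x
  rw [mem_Bl hb', mem_Bl hb, NNReal.coe_mul, Real.rpow_sub two_pos, Real.rpow_logb two_pos (by norm_num) ha',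
    le_div_iff₀ ha', mul_comm]

/-- a norm is close to itself -/
theorem cl_self [Finite E] {π : (LL E)ˣ} (hπ : od E π = 1) {b : (Fin n → LL E) → ℝ≥0} (hb : IsNrm b) {e D : ℝ} (he : 0 ≤ e)
    (g : GL (Fin n) (LL E)) : Cl (hv := isDV_od E) π (LM (isDV_od E) g) (Bl b) (Bl b) e D := by
  obtain ⟨e', β, hA⟩ := hn_Bl hb g
  have h1 : ∀ (k : Fin n) (t : ℝ), sg π (LM (isDV_od E) g) (Bl b) k t ≤ sg π (LM (isDV_od E) g) (Bl b) k (t + e) := by
    intro k t
    unfold sg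
    exact sup_le_sup (Pool.Agent.H25.CO.ad_monotone hA (by linarith)) (Pool.Agent.H25.CO.bl_mono hπ (by linarith) _)
  intro k t _
  exact ⟨inf_le_right.trans (h1 k t), inf_le_right.trans (h1 k t)⟩

theorem ep_pos (n : ℕ) : 0 < ep n := by
  unfold ep
  positivity

theorem near_iff {m k : ℕ} {p : Fin m → ℤ} : Near k p 0 ↔ ∀ l, |p l| ≤ k := by
  unfold Near
  simp

/-- the output of the core -/
theorem core_out (hn : 0 < n) {J : Type} [Finite J] {R c : ℕ} (hc : 3 * RR n R + 1 ≤ c)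
    (hcnt : ∀ s', s' ≤ Nat.card J → (10 * (CC n R c + 1) * (s' + 1) ^ (Ln (AA n R) c (NN n))) ^ 3 ^ (JJ n) ≤ 2 ^ (c ^ 2))
    [Finite E] {σ : J → GL (Fin n) (LL E)} (h1 : ∃ j, σ j = 1)
    (hinv : ∀ j, ∃ j', σ j' = (σ j)⁻¹) (hB : ∀ j, Bdm R (od E) (σ j)) {π : (LL E)ˣ} (hπ : od E π = 1) {δ : ℝ≥0}
    (hδ : (δ : ℝ) ≤ 2 ^ (-(Ln (AA n R) c (NN n) : ℝ)) * (2 ^ (ep n) - 1)) :
    CoreOut σ (fun t : Reg n => (t.1 : ℕ)) (3 * RR n R) 2 c (TW J (Ln (AA n R) c (NN n)) (CC n R c) (JJ n))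
      (fun t b => StP π (Set.range σ) R c t b) (fun t b => WkP π (Set.range σ) R c t b)
      (fun t b => fP π (Set.range σ) R c t b) δ := by
  have hs := stp_of h1 hinv hB hπ
  have hc1 : 1 ≤ c := by omega
  have hval : ∀ (t : Reg n) (b : (Fin n → LL E) → ℝ≥0), IsNrm b → WkP π (Set.range σ) R c t b → ∀ p, Near c p 0 →
      ∃ m ∈ TL (Set.range σ) (Ln (AA n R) c (NN n)) (CC n R c) (JJ n),
        fP π (Set.range σ) R c t b p = ev (isDV_od E) π (fun g => g) m := by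
    intro t b hb hW p hp
    exact weak_term hn hs hc1 hW.1 (hn_Bl hb) (fP_spec hW) (near_iff.1 hp)
  obtain ⟨hfin, hcard⟩ := TL_card (hs.fin) (Ln (AA n R) c (NN n)) (CC n R c) (JJ n)
  have hsub : {Λ | ∃ (t : Reg n) (b : (Fin n → LL E) → ℝ≥0) (p : Fin ((t.1 : ℕ) + 1) → ℤ), IsNrm b ∧
      WkP π (Set.range σ) R c t b ∧ Near c p 0 ∧ Λ = fP π (Set.range σ) R c t b p} ⊆
      (ev (isDV_od E) π (fun g => g)) '' TL (Set.range σ) (Ln (AA n R) c (NN n)) (CC n R c) (JJ n) := by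
    rintro Λ ⟨t, b, p, hb, hW, hp, rfl⟩
    obtain ⟨m, hm, e⟩ := hval t b hb hW p hp
    exact ⟨m, hm, e.symm⟩
  refine ⟨?_, ?_, ?_, ?_, ?_, ?_⟩
  · intro b hb
    obtain ⟨r, d, f, hd, hf⟩ := exists_strong hn hs hc1 1 (hn_Bl hb)
    have hr : r < n := hd.lt
    exact ⟨⟨⟨r, hr⟩, fun i => d i⟩, rg_congr (fun l hl => ex_restr d l hl) hd, f,
      st_congr (fun _ => rfl) (fun l hl => ex_restr d l hl) hf⟩
  · intro t b0 b b' j a hb0 hb hSt hcl ha hb'
    obtain ⟨hRg, fs, hfs⟩ := hSt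
    have hcl' := cl_of_close (ep_pos n) hπ hδ hb hb0 hcl
    obtain ⟨⟨f1, hf1⟩, hall⟩ := stable hn hs hc1 hRg (g := 1) (s := σ j) ⟨j, rfl⟩ (hn_Bl hb0) (hn_Bl hb) hcl' hfs
    obtain ⟨-, hall0⟩ := stable hn hs hc1 hRg (g := 1) (s := 1) hs.one (hn_Bl hb0) (hn_Bl hb0)
      (cl_self hπ hb0 (ep_pos n).le 1) hfs
    -- the norm `a b`
    have hba : IsNrm fun x => a * b x := by
      have := isNrm_comp hb 1 ha
      simpa using this
    have hsc : ∀ g, sg π (La (isDV_od E) (MonoidHom.id (GL (Fin n) (LL E))) g) (Bl fun x => a * b x) =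
        sg π (La (isDV_od E) (MonoidHom.id (GL (Fin n) (LL E))) g) (Bl b) := fun g =>
      sg_scale (Bl_scale hb ha) (hn_Bl hb) g
    have hBl' : Bl b' = fun t => mv (σ j)⁻¹ (Bl (fun x => a * b x) t) := by
      rw [← Bl_comp hba (σ j)]
      congr 1
      funext y
      exact hb' y
    have hBl'' : (fun t => mv (σ j) (Bl b' t)) = Bl fun x => a * b x := by
      funext t
      rw [hBl']
      show mv (σ j) (mv (σ j)⁻¹ (Bl (fun x => a * b x) t)) = _
      rw [← Pool.Agent.H25.CO.mv_mul, mul_inv_cancel, Pool.Agent.H25.CO.mv_one]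
    have hW : WkP π (Set.range σ) R c t b' := by
      refine ⟨hRg, fun i => mv (σ j)⁻¹ (f1 i), ?_⟩
      have h2 := wk_congr (fun g => (hsc g).symm) (fun l _ => rfl) hf1
      have h3 := weak_equiv hs (σ j)⁻¹ (1 * σ j) (hn_Bl hba) h2
      rw [one_mul, inv_mul_cancel] at h3
      rw [hBl']
      exact h3
    refine ⟨hW, ?_⟩
    have hf' := fP_spec hW
    have h4 := weak_equiv hs (σ j) 1 (by
      have : IsNrm b' := by
        have := isNrm_comp hb (σ j) ha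
        have e : b' = fun x => a * b ((σ j).val *ᵥ x) := funext hb'
        rw [e]
        exact this
      exact hn_Bl this) hf'
    have h5 : Wk (hv := isDV_od E) π (MonoidHom.id (GL (Fin n) (LL E))) (Set.range σ) (AA n R) c (t.1 : ℕ) (ex t.2) (1 * σ j)
        (Bl b) (fun i => mv (σ j) (fP π (Set.range σ) R c t b' i)) := by
      have h6 : Wk (hv := isDV_od E) π (MonoidHom.id (GL (Fin n) (LL E))) (Set.range σ) (AA n R) c (t.1 : ℕ) (ex t.2) (σ j * 1)
          (Bl fun x => a * b x) (fun i => mv (σ j) (fP π (Set.range σ) R c t b' i)) := by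
        rw [← hBl'']
        exact h4
      rw [mul_one] at h6
      rw [one_mul]
      exact wk_congr hsc (fun l _ => rfl) h6
    obtain ⟨δ1, hδ1, h7⟩ := hall _ h5
    have hW0 : WkP π (Set.range σ) R c t b0 := ⟨hRg, fs, Pool.Agent.H75.CO.St.wk hn hs hc1 hRg (hn_Bl hb0) hfs⟩
    have h8 : Wk (hv := isDV_od E) π (MonoidHom.id (GL (Fin n) (LL E))) (Set.range σ) (AA n R) c (t.1 : ℕ) (ex t.2) (1 * 1)
        (Bl b0) (fP π (Set.range σ) R c t b0) := by
      rw [one_mul]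
      exact fP_spec hW0
    obtain ⟨δ0, hδ0, h9⟩ := hall0 _ h8
    refine ⟨δ1 - δ0, ?_, ?_⟩
    · rw [near_iff]
      intro l
      have e1 := abs_le.1 (hδ1 l)
      have e2 := abs_le.1 (hδ0 l)
      rw [Pi.sub_apply, abs_le]
      push_cast
      constructor <;> linarith [e1.1, e1.2, e2.1, e2.2]
    · intro p hp
      rw [near_iff] at hp
      have hp' : ∀ l, |p l| ≤ (c : ℤ) - 3 * RR n R := by
        intro l
        have := hp l
        have h3 : 3 * RR n R ≤ c := by omega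
        push_cast [Nat.cast_sub h3] at this
        exact this
      have e3 := h7 p fun l => by
        have := hp' l
        have h0 : (0 : ℤ) ≤ RR n R := Int.natCast_nonneg _
        linarith
      have e4 := h9 (p + (δ1 - δ0)) fun l => by
        have e0 := abs_le.1 (hp' l)
        have e1 := abs_le.1 (hδ1 l)
        have e2 := abs_le.1 (hδ0 l)
        have e5 : |(p + (δ1 - δ0)) l| ≤ (c : ℤ) - RR n R := by
          rw [Pi.add_apply, Pi.sub_apply, abs_le]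
          constructor <;> linarith [e0.1, e0.2, e1.1, e1.2, e2.1, e2.2]
        linarith
      have e5 : p + (δ1 - δ0) + δ0 = p + δ1 := by
        funext l
        simp only [Pi.add_apply, Pi.sub_apply]
        ring
      rw [e5] at e4
      show mv (σ j) (fP π (Set.range σ) R c t b' p) = fP π (Set.range σ) R c t b0 (p + (δ1 - δ0))
      rw [e4]
      exact e3
  · intro t b hb hW p q hp hq he
    exact weak_inj hn hs hc1 hW.1 (hn_Bl hb) (fP_spec hW) (near_iff.1 hp) (near_iff.1 hq) he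
  · intro t b hb hW p hp π' hπ'
    obtain ⟨m, hm, e⟩ := hval t b hb hW p hp
    obtain ⟨m', hm', e'⟩ := exists_TW (isDV_od E) π σ _ _ _ hm
    refine ⟨m', hm', ?_⟩
    rw [e, e']
    exact ev_unif (isDV_od E) (by rw [hπ, hπ']) _ _
  · exact (hfin.image _).subset hsub
  · have hcJ : (Set.range σ).ncard ≤ Nat.card J := by
      rw [← Set.image_univ, ← Set.ncard_univ]
      exact Set.ncard_image_le Set.finite_univ
    calc _ ≤ ((ev (isDV_od E) π (fun g => g)) '' TL (Set.range σ) (Ln (AA n R) c (NN n)) (CC n R c) (JJ n)).ncard :=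
          Set.ncard_le_ncard hsub (hfin.image _)
      _ ≤ (TL (Set.range σ) (Ln (AA n R) c (NN n)) (CC n R c) (JJ n)).ncard := Set.ncard_image_le hfin
      _ ≤ _ := hcard
      _ ≤ 2 ^ (c ^ 2) := hcnt _ hcJ

/-- CORE, in the form of the interface to GLUE -/
theorem core {n : ℕ} (hn : 0 < n) : ∃ (Reg : Type) (_ : Fintype Reg) (r : Reg → ℕ), ∀ (J : Type) [Finite J] (R : ℕ),
    ∃ R' κ c1 : ℕ, ∀ c, c1 ≤ c → ∃ (M : ℕ) (T : Set (Pool.Agent.H98.RH.LT (Fin M → J))), T.Finite ∧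
      ∀ (E : Type) [Field E] [Finite E] (σ : J → GL (Fin n) (LL E)), (∃ j, σ j = 1) → (∀ j, ∃ j', σ j' = (σ j)⁻¹) →
        (∀ j, Bdm R (od E) (σ j)) → ∃ (St Wk : Reg → ((Fin n → LL E) → ℝ≥0) → Prop)
          (f : ∀ t : Reg, ((Fin n → LL E) → ℝ≥0) → (Fin (r t + 1) → ℤ) → Submodule (Ov (isDV_od E)) (Fin n → LL E))
          (δ : ℝ≥0), 0 < δ ∧ CoreOut σ r R' κ c T St Wk f δ := by
  refine ⟨Reg n, Fintype.ofFinite _, fun t => (t.1 : ℕ), ?_⟩
  intro J _ R
  obtain ⟨c1, hc1⟩ := count_bound n R (Nat.card J)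
  refine ⟨3 * RR n R, 2, max c1 (3 * RR n R + 1), fun c hc => ?_⟩
  refine ⟨Ln (AA n R) c (NN n), TW J (Ln (AA n R) c (NN n)) (CC n R c) (JJ n), TW_finite _ _ _, ?_⟩
  intro E _ _ σ h1 hinv hB
  obtain ⟨p, hp0, hp⟩ := (isDV_od E).unif
  have h2 : (0 : ℝ) < 2 ^ (-(Ln (AA n R) c (NN n) : ℝ)) * (2 ^ (ep n) - 1) := by
    refine mul_pos (by positivity) ?_
    have := Real.one_lt_rpow one_lt_two (ep_pos n)
    linarith
  exact ⟨_, _, _, ⟨_, h2.le⟩, h2, core_out hn (le_trans (le_max_right _ _) hc) (hc1 c (le_trans (le_max_left _ _) hc)) h1 hinv hB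
    (π := Units.mk0 p hp0) hp le_rfl⟩

end Pool.Agent.H10.BR
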