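import Pool.Agent.H10.BR.Bt
import Pool.Agent.H92.LG.CoreS
import Mathlib.Analysis.SpecialFunctions.Log.Base

/-!
# H10 BR, Nb: the balls of a norm
-/

set_option autoImplicit false

namespace Pool.Agent.H10.BR

open Pool.Agent.H54.TT Pool.Agent.H98.RH Pool.Agent.H75.CO Pool.Agent.H25.DI Pool.Agent.H92.LG Pool.Agent.H9.XM Matrix
open scoped NNReal

variable {E : Type} [Field E] {n : ℕ}

open Classical in
/-- the balls of a norm -/
noncomputable def Bl (b : (Fin n → LL E) → ℝ≥0) (t : ℝ) : Submodule (Ov (isDV_od E)) (Fin n → LL E) :=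
  if hb : IsNrm b then
    { carrier := {x | (b x : ℝ) ≤ 2 ^ t}
      add_mem' := by
        intro x y hx hy
        have h1 : (b (x + y) : ℝ) ≤ max (b x : ℝ) (b y : ℝ) := by exact_mod_cast hb.add x y
        exact h1.trans (max_le hx hy)
      zero_mem' := by
        have h1 := hb.smul 0 0
        rw [zero_smul, nnnorm_zero, zero_mul] at h1
        show (b 0 : ℝ) ≤ 2 ^ t
        rw [h1, NNReal.coe_zero]
        positivity
      smul_mem' := by
        intro c x hx
        show (b ((c : LL E) • x) : ℝ) ≤ 2 ^ t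
        rw [hb.smul, NNReal.coe_mul]
        have h1 : ‖(c : LL E)‖ ≤ 1 := by
          have := (norm_le 0 (c : LL E)).2 c.2
          rwa [neg_zero, zpow_zero] at this
        have hx' : (b x : ℝ) ≤ 2 ^ t := hx
        calc (‖(c : LL E)‖₊ : ℝ) * (b x : ℝ) ≤ 1 * (b x : ℝ) := by
              refine mul_le_mul_of_nonneg_right ?_ (b x).2
              rw [coe_nnnorm]
              exact h1
          _ ≤ 2 ^ t := by rw [one_mul]; exact hx' }
  else ⊥

theorem mem_Bl {b : (Fin n → LL E) → ℝ≥0} (hb : IsNrm b) {t : ℝ} {x : Fin n → LL E} :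
    x ∈ Bl b t ↔ (b x : ℝ) ≤ 2 ^ t := by
  unfold Bl
  rw [dif_pos hb]
  rfl

/-- comparison of values -/
theorem mul_le_iff {x : LL E} {a : ℝ≥0} (ha : 0 < a) {t : ℝ} :
    ((‖x‖₊ * a : ℝ≥0) : ℝ) ≤ 2 ^ t ↔ GeR (od E) (-t - -(Real.logb 2 a)) x := by
  have ha' : (0 : ℝ) < a := by exact_mod_cast ha
  rw [NNReal.coe_mul, coe_nnnorm]
  by_cases hx : x = 0
  · rw [hx, norm_zero, zero_mul]
    exact ⟨fun _ h => absurd rfl h, fun _ => by positivity⟩
  · have e1 : ‖x‖ * (a : ℝ) = 2 ^ (-(od E x : ℝ) + Real.logb 2 a) := by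
      rw [norm_ne hx, Real.rpow_add two_pos, Real.rpow_logb two_pos (by norm_num) ha', ← Real.rpow_intCast]
      push_cast
      rfl
    rw [e1, Real.rpow_le_rpow_left_iff one_lt_two]
    constructor
    · intro h _
      linarith
    · intro h
      have := h hx
      linarith

theorem sup_le_iff' {ι : Type*} (s : Finset ι) (f : ι → ℝ≥0) (t : ℝ) :
    ((s.sup f : ℝ≥0) : ℝ) ≤ 2 ^ t ↔ ∀ i ∈ s, ((f i : ℝ≥0) : ℝ) ≤ 2 ^ t := by
  obtain ⟨q, hq⟩ : ∃ q : ℝ≥0, (q : ℝ) = 2 ^ t := ⟨⟨2 ^ t, by positivity⟩, rfl⟩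
  rw [← hq, NNReal.coe_le_coe, Finset.sup_le_iff]
  exact forall_congr' fun i => forall_congr' fun _ => NNReal.coe_le_coe.symm

/-- the transposed matrix as an element of the general linear group -/
noncomputable def tg {B : Matrix (Fin n) (Fin n) (LL E)} (hB : GO B) : GL (Fin n) (LL E) :=
  Matrix.GeneralLinearGroup.mkOfDetNeZero Bᵀ (by
    rw [Matrix.det_transpose]
    intro h
    have := hB.det
    rw [h, nnnorm_zero] at this
    exact zero_ne_one this)

theorem tg_val {B : Matrix (Fin n) (Fin n) (LL E)} (hB : GO B) : (tg hB).val = Bᵀ := rfl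

theorem tg_int {B : Matrix (Fin n) (Fin n) (LL E)} (hB : GO B) : Int (od E) (tg hB) := by
  constructor
  · intro i j
    have h1 : ‖B j i‖ ≤ 1 := by
      have := hB.int j i
      exact_mod_cast this
    have h2 := (norm_le 0 (B j i)).1 (by rwa [neg_zero, zpow_zero])
    exact h2
  · have h1 : ‖(tg hB).val.det‖ = 1 := by
      rw [tg_val, Matrix.det_transpose]
      have := congrArg NNReal.toReal hB.det
      rwa [coe_nnnorm, NNReal.coe_one] at this
    have h2 : (tg hB).val.det ≠ 0 := (tg hB).det.ne_zero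
    rw [norm_ne h2, zpow_eq_one_iff_right₀ (by norm_num) (by norm_num)] at h1
    omega

/-- an orthogonal basis gives an adapted basis -/
theorem ad_of_adp {b : (Fin n → LL E) → ℝ≥0} (hb : IsNrm b) {B : Matrix (Fin n) (Fin n) (LL E)} {α : Fin n → ℝ≥0}
    (h : Pool.Agent.H92.LG.Adp B α b) :
    Ad (hv := isDV_od E) (Bl b) (LM (isDV_od E) 1) (tg h.go) fun i => -(Real.logb 2 (α i)) where
  lat := by
    have := LM_mul_int (isDV_od E) (g := 1) (tg_int h.go)
    rwa [one_mul] at this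
  mono := by
    intro i j hij
    have h1 : (α j : ℝ) ≤ α i := by exact_mod_cast h.anti i j hij
    have h2 : (0 : ℝ) < α j := by exact_mod_cast h.pos j
    exact neg_le_neg (Real.logb_le_logb_of_le one_lt_two h2 h1)
  mem := by
    intro t x
    rw [mem_Bl hb]
    have e1 : x = vecMul (((tg h.go)⁻¹ : GL (Fin n) (LL E)).val *ᵥ x) B := by
      have := mulVec_inv (tg h.go) x
      rw [tg_val, Matrix.mulVec_transpose] at this
      exact this.symm
    rw [e1, h.eq, ← e1, sup_le_iff']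
    constructor
    · intro h1 i
      exact (mul_le_iff (h.pos i)).1 (h1 i (Finset.mem_univ i))
    · intro h1 i _
      exact (mul_le_iff (h.pos i)).2 (h1 i)

/-- existence of an orthogonal basis, in the form `Adp` -/
theorem exists_adp [Finite E] {b : (Fin n → LL E) → ℝ≥0} (hb : IsNrm b) :
    ∃ (B : Matrix (Fin n) (Fin n) (LL E)) (α : Fin n → ℝ≥0), Pool.Agent.H92.LG.Adp B α b := by
  obtain ⟨B, h1, h2, h3⟩ := exists_sorted hb
  refine ⟨B, fun i => b (B i), h1, fun i => hb.pos _ ?_, h2, h3⟩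
  intro h0
  have := h1.det
  rw [Matrix.det_eq_zero_of_row_eq_zero i (fun j => congrFun h0 j), nnnorm_zero] at this
  exact zero_ne_one this

/-- the norm `x ↦ b (h x)` -/
theorem isNrm_comp {b : (Fin n → LL E) → ℝ≥0} (hb : IsNrm b) (h : GL (Fin n) (LL E)) {a : ℝ≥0} (ha : 0 < a) :
    IsNrm fun x => a * b (h.val *ᵥ x) where
  add x y := by
    show a * b (h.val *ᵥ (x + y)) ≤ max (a * b (h.val *ᵥ x)) (a * b (h.val *ᵥ y))
    rw [Matrix.mulVec_add, ← mul_max]
    exact mul_le_mul_right (hb.add _ _) a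
  smul c x := by
    show a * b (h.val *ᵥ (c • x)) = ‖c‖₊ * (a * b (h.val *ᵥ x))
    rw [Matrix.mulVec_smul, hb.smul]
    ring
  pos x hx := by
    refine mul_pos ha (hb.pos _ ?_)
    intro h0
    apply hx
    rw [← inv_mulVec h x, h0, Matrix.mulVec_zero]

/-- the balls of `x ↦ a b (h x)` -/
theorem Bl_comp {b : (Fin n → LL E) → ℝ≥0} (hb : IsNrm b) (h : GL (Fin n) (LL E)) :
    Bl (fun x => b (h.val *ᵥ x)) = fun t => mv h⁻¹ (Bl b t) := by
  have hb' : IsNrm fun x => b (h.val *ᵥ x) := by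
    have := isNrm_comp hb h one_pos
    simpa using this
  funext t
  ext x
  rw [mem_Bl hb']
  constructor
  · intro hx
    exact ⟨h.val *ᵥ x, (mem_Bl hb).2 hx, inv_mulVec h x⟩
  · rintro ⟨y, hy, rfl⟩
    have h1 : h.val *ᵥ ((h⁻¹ : GL (Fin n) (LL E)).val *ᵥ y) = y := mulVec_inv h y
    show (b (h.val *ᵥ ((h⁻¹ : GL (Fin n) (LL E)).val *ᵥ y)) : ℝ) ≤ 2 ^ t
    rw [h1]
    exact (mem_Bl hb).1 hy

/-- norms are honest -/
theorem hn_Bl [Finite E] {b : (Fin n → LL E) → ℝ≥0} (hb : IsNrm b) : Hn (hv := isDV_od E) (Bl b) := by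
  intro h
  have hb' : IsNrm fun x => b (h.val *ᵥ x) := by
    have := isNrm_comp hb h one_pos
    simpa using this
  obtain ⟨B, α, hA⟩ := exists_adp hb'
  have h1 := ad_of_adp hb' hA
  refine ⟨h * tg hA.go, fun i => -(Real.logb 2 (α i)), ?_, h1.mono, ?_⟩
  · exact LM_mul_int (isDV_od E) (tg_int hA.go)
  · intro t x
    rw [_root_.mul_inv_rev, Units.val_mul, ← Matrix.mulVec_mulVec, ← h1.mem, mem_Bl hb, mem_Bl hb']
    show _ ↔ (b (h.val *ᵥ ((h⁻¹ : GL (Fin n) (LL E)).val *ᵥ x)) : ℝ) ≤ 2 ^ t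
    rw [mulVec_inv]

end Pool.Agent.H10.BR
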